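import Pool.Agent.Helper88.SlabLarge

/-!
Module FA-F6 of the project on MP_66ebcc_gt: the case of one large coordinate.
-/

set_option autoImplicit false

open MeasureTheory Set Real
open Pool.Agent.Helper88.Slab (prob ind A cube)

namespace Pool.Agent.Helper89.FA

/-- the scalar inequality behind `caseC`. -/
lemma caseC_scalar {s t q : ℝ} (hs0 : 0.78 ≤ s) (hs1 : s ≤ 1) (ht1 : 1.0129 ≤ t) (ht2 : t ≤ 1.03)
    (hq0 : 0 ≤ q) (hq : q ≤ 1.73206) :
    24 * (1 - s ^ 2) ≤ 27 * s * (t - s) * (3 - q * t) ^ 3 := by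
  have hw : (3 : ℝ) - 1.73206 * t ≤ 3 - q * t := by nlinarith
  obtain ⟨w, hwdef⟩ : ∃ w, w = 3 - q * t := ⟨_, rfl⟩
  rw [← hwdef] at hw ⊢
  have hwpos : 0 < w := by nlinarith
  have hcub : (1.860867 : ℝ) + 4.5387 * (w - 1.23) ≤ w ^ 3 := by
    nlinarith [mul_nonneg (by linarith : (0:ℝ) ≤ w + 2 * 1.23) (sq_nonneg (w - 1.23))]
  have hcub2 : (1.860867 : ℝ) + 4.5387 * (3 - 1.73206 * t - 1.23) ≤ w ^ 3 := by linarith
  have h2 : (24 : ℝ) * 0.3916 ≤ 27 * 0.78 * (t - 0.78) * w ^ 3 := by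
    have h3 : 27 * 0.78 * (t - 0.78) * ((1.860867 : ℝ) + 4.5387 * (3 - 1.73206 * t - 1.23)) ≤
        27 * 0.78 * (t - 0.78) * w ^ 3 := by
      apply mul_le_mul_of_nonneg_left hcub2
      nlinarith
    nlinarith [mul_nonneg (by linarith : (0:ℝ) ≤ t - 1.0129) (by linarith : (0:ℝ) ≤ 1.03 - t)]
  have h1 : (1 - s ^ 2) * (0.78 * (t - 0.78)) ≤ 0.3916 * (s * (t - s)) := by
    have : 0 ≤ (s - 0.78) * ((t - 0.78) - (1 - 0.78 * t) * s) := by
      apply mul_nonneg (by linarith)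
      nlinarith
    nlinarith
  have hst : 0 ≤ s * (t - s) := mul_nonneg (by linarith) (by linarith)
  have hA : 0 < 0.78 * (t - 0.78) := by nlinarith
  have h4 : 24 * (1 - s ^ 2) * (0.78 * (t - 0.78)) ≤
      (27 * s * (t - s) * w ^ 3) * (0.78 * (t - 0.78)) := by
    have h5 := mul_le_mul_of_nonneg_left h2 hst
    nlinarith
  exact le_of_mul_le_mul_right h4 hA

theorem caseC {n : ℕ} (a : Fin n → ℝ) (i : Fin n) (ha : ∑ j, a j ^ 2 = 1) {t M : ℝ}
    (ht1 : 1.0129 ≤ t) (ht2 : t ≤ 1.03) (hM : M = (3 - √3 * t) ^ 3 / 24) (h : 0.78 ≤ |a i|) :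
    1 - M ≤ prob a t := by
  obtain ⟨m, rfl⟩ : ∃ m, n = m + 1 := ⟨n - 1, by have := i.2; omega⟩
  obtain ⟨s, hsdef⟩ : ∃ s, |a i| = s := ⟨_, rfl⟩
  rw [hsdef] at h
  have hs0 : 0 < s := by linarith
  have hs1 : s ≤ 1 := by
    have : a i ^ 2 ≤ 1 := by
      rw [← ha]
      exact Finset.single_le_sum (f := fun j => a j ^ 2) (fun j _ => sq_nonneg _)
        (Finset.mem_univ i)
    have h2 : s ^ 2 ≤ 1 := by rwa [← hsdef, sq_abs]
    nlinarith
  have hc : 0 < t - s := by linarith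
  have key := Pool.Agent.Helper88.Slab.prob_ge a i (T := t) (α := 1)
    (γ := 1 / (27 * s * (t - s))) (by linarith) ha hs0 hsdef (by
      intro v hv
      rw [abs_of_pos hc]
      have h1 : (1 : ℝ) ≤ min 1 (t / s) := by
        apply le_min le_rfl
        rw [le_div_iff₀ hs0]
        linarith
      exact Pool.Agent.Helper88.Slab.cubic0 hs0 hc h1 hv)
  refine le_trans ?_ key
  have hq0 : (0 : ℝ) ≤ √3 := Real.sqrt_nonneg _
  have hq : √3 ≤ 1.73206 := by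
    rw [Real.sqrt_le_left (by norm_num)]
    norm_num
  have hsc := caseC_scalar h hs1 ht1 ht2 hq0 hq
  have h3 : 1 / (27 * s * (t - s)) * (1 - s ^ 2) ≤ M := by
    rw [hM, div_mul_eq_mul_div, one_mul, div_le_div_iff₀ (by positivity) (by norm_num)]
    linarith
  linarith

end Pool.Agent.Helper89.FA
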